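import Mathlib

/-!
# MP_afce15_co, Q1: the minimum order can grow exponentially

For every `k ≥ 1` there is a latin bitrade `(W k, B k)` with `|W k| = 3 k + 1` filled cells such that
both mates embed in the cyclic group of order `2 ^ k`, while every finite abelian group in which
`W k` embeds has order at least `2 ^ k`. Hence `m(W k, B k) = 2 ^ k ≥ (2 ^ (1/4)) ^ |W k|`.

The row `0` of `W k` is `0 1 2 … k`, the row `i ≥ 1` has the symbol `i` in column `i - 1` and `0` in
column `i`. The row `0` of `B k` is `1 2 … k 0`, the row `i ≥ 1` has the symbol `0` in column `i - 1`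
and `i` in column `i`.
-/

namespace Pool.Agent.Results.MP_afce15_co.Exponential

/-- A partial latin square: a set of (row, column, symbol) triples in which any two coordinates of
a triple determine the third. -/
def IsPartialLatin (P : Finset (ℕ × ℕ × ℕ)) : Prop :=
  (∀ r c s s', (r, c, s) ∈ P → (r, c, s') ∈ P → s = s') ∧
  (∀ r c c' s, (r, c, s) ∈ P → (r, c', s) ∈ P → c = c') ∧
  (∀ r r' c s, (r, c, s) ∈ P → (r', c, s) ∈ P → r = r')

/-- A latin bitrade: two nonempty disjoint partial latin squares with the same filled cells, in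
which corresponding rows contain the same symbols and corresponding columns contain the same
symbols. -/
def IsBitrade (W B : Finset (ℕ × ℕ × ℕ)) : Prop :=
  W.Nonempty ∧ B.Nonempty ∧ IsPartialLatin W ∧ IsPartialLatin B ∧ Disjoint W B ∧
  (∀ r c, (∃ s, (r, c, s) ∈ W) ↔ ∃ s, (r, c, s) ∈ B) ∧
  (∀ r s, (∃ c, (r, c, s) ∈ W) ↔ ∃ c, (r, c, s) ∈ B) ∧
  (∀ c s, (∃ r, (r, c, s) ∈ W) ↔ ∃ r, (r, c, s) ∈ B)

/-- `P` embeds in the abelian group `G`: there are maps on the rows, on the columns and on the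
symbols of `P` into `G`, each injective, with `α r + β c = γ s` for all triples of `P`. -/
def Embeds (P : Finset (ℕ × ℕ × ℕ)) (G : Type) [AddCommGroup G] : Prop :=
  ∃ α β γ : ℕ → G,
    Set.InjOn α {r | ∃ c s, (r, c, s) ∈ P} ∧
    Set.InjOn β {c | ∃ r s, (r, c, s) ∈ P} ∧
    Set.InjOn γ {s | ∃ r c, (r, c, s) ∈ P} ∧
    ∀ r c s, (r, c, s) ∈ P → α r + β c = γ s

/-- The orders of the finite abelian groups in which both mates embed; the minimum order `m(W, B)`
is the least element of this set. -/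
def orders (W B : Finset (ℕ × ℕ × ℕ)) : Set ℕ :=
  {n | ∃ (G : Type) (_ : AddCommGroup G) (_ : Finite G),
    Embeds W G ∧ Embeds B G ∧ Nat.card G = n}

/-- the mate `W k` -/
def W (k : ℕ) : Finset (ℕ × ℕ × ℕ) :=
  (Finset.range (k + 1)).image (fun i => (0, i, i)) ∪
  ((Finset.range k).image (fun i => (i + 1, i, i + 1)) ∪
   (Finset.range k).image (fun i => (i + 1, i + 1, 0)))

/-- the mate `B k` -/
def B (k : ℕ) : Finset (ℕ × ℕ × ℕ) :=
  (Finset.range k).image (fun i => (0, i, i + 1)) ∪ ({(0, k, 0)} ∪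
  ((Finset.range k).image (fun i => (i + 1, i + 1, i + 1)) ∪
   (Finset.range k).image (fun i => (i + 1, i, 0))))

lemma mem_W (k r c s : ℕ) : (r, c, s) ∈ W k ↔
    (r = 0 ∧ c = s ∧ s ≤ k) ∨ (r = c + 1 ∧ s = c + 1 ∧ c < k) ∨
    (r = c ∧ s = 0 ∧ 1 ≤ c ∧ c ≤ k) := by
  simp only [W, Finset.mem_union, Finset.mem_image, Finset.mem_range, Prod.mk.injEq]
  constructor
  · rintro (⟨i, hi, h1, h2, h3⟩ | ⟨i, hi, h1, h2, h3⟩ | ⟨i, hi, h1, h2, h3⟩) <;> omega
  · rintro (⟨h1, h2, h3⟩ | ⟨h1, h2, h3⟩ | ⟨h1, h2, h3, h4⟩)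
    · exact Or.inl ⟨s, by omega, by omega, by omega, rfl⟩
    · exact Or.inr (Or.inl ⟨c, by omega, by omega, by omega, by omega⟩)
    · exact Or.inr (Or.inr ⟨c - 1, by omega, by omega, by omega, by omega⟩)

lemma mem_B (k r c s : ℕ) : (r, c, s) ∈ B k ↔
    (r = 0 ∧ s = c + 1 ∧ c < k) ∨ (r = 0 ∧ c = k ∧ s = 0) ∨
    (r = c ∧ s = c ∧ 1 ≤ c ∧ c ≤ k) ∨ (r = c + 1 ∧ s = 0 ∧ c < k) := by
  simp only [B, Finset.mem_union, Finset.mem_image, Finset.mem_range, Prod.mk.injEq,
    Finset.mem_singleton]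
  constructor
  · rintro (⟨i, hi, h1, h2, h3⟩ | ⟨h1, h2, h3⟩ | ⟨i, hi, h1, h2, h3⟩ | ⟨i, hi, h1, h2, h3⟩) <;>
      omega
  · rintro (⟨h1, h2, h3⟩ | ⟨h1, h2, h3⟩ | ⟨h1, h2, h3, h4⟩ | ⟨h1, h2, h3⟩)
    · exact Or.inl ⟨c, by omega, by omega, by omega, by omega⟩
    · exact Or.inr (Or.inl ⟨h1, h2, h3⟩)
    · exact Or.inr (Or.inr (Or.inl ⟨c - 1, by omega, by omega, by omega, by omega⟩))
    · exact Or.inr (Or.inr (Or.inr ⟨c, by omega, by omega, by omega, by omega⟩))

lemma partialLatin_W (k : ℕ) : IsPartialLatin (W k) := by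
  refine ⟨?_, ?_, ?_⟩
  · intro r c s s' h h'
    rw [mem_W] at h h'
    omega
  · intro r c c' s h h'
    rw [mem_W] at h h'
    omega
  · intro r r' c s h h'
    rw [mem_W] at h h'
    omega

lemma partialLatin_B (k : ℕ) : IsPartialLatin (B k) := by
  refine ⟨?_, ?_, ?_⟩
  · intro r c s s' h h'
    rw [mem_B] at h h'
    omega
  · intro r c c' s h h'
    rw [mem_B] at h h'
    omega
  · intro r r' c s h h'
    rw [mem_B] at h h'
    omega

lemma bitrade (k : ℕ) (hk : 1 ≤ k) : IsBitrade (W k) (B k) := by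
  refine ⟨⟨(0, 0, 0), by rw [mem_W]; omega⟩, ⟨(0, k, 0), by rw [mem_B]; omega⟩,
    partialLatin_W k, partialLatin_B k, ?_, ?_, ?_, ?_⟩
  · rw [Finset.disjoint_left]
    rintro ⟨r, c, s⟩ h h'
    rw [mem_W] at h
    rw [mem_B] at h'
    omega
  · intro r c
    constructor
    · rintro ⟨s, h⟩
      rw [mem_W] at h
      by_cases h0 : r = 0
      · by_cases hc : c = k
        · exact ⟨0, by rw [mem_B]; omega⟩
        · exact ⟨c + 1, by rw [mem_B]; omega⟩
      · by_cases hrc : r = c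
        · exact ⟨c, by rw [mem_B]; omega⟩
        · exact ⟨0, by rw [mem_B]; omega⟩
    · rintro ⟨s, h⟩
      rw [mem_B] at h
      by_cases h0 : r = 0
      · exact ⟨c, by rw [mem_W]; omega⟩
      · by_cases hrc : r = c
        · exact ⟨0, by rw [mem_W]; omega⟩
        · exact ⟨c + 1, by rw [mem_W]; omega⟩
  · intro r s
    constructor
    · rintro ⟨c, h⟩
      rw [mem_W] at h
      by_cases h0 : r = 0
      · by_cases hs : s = 0
        · exact ⟨k, by rw [mem_B]; omega⟩
        · exact ⟨s - 1, by rw [mem_B]; omega⟩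
      · by_cases hs : s = 0
        · exact ⟨r - 1, by rw [mem_B]; omega⟩
        · exact ⟨r, by rw [mem_B]; omega⟩
    · rintro ⟨c, h⟩
      rw [mem_B] at h
      by_cases h0 : r = 0
      · exact ⟨s, by rw [mem_W]; omega⟩
      · by_cases hs : s = 0
        · exact ⟨r, by rw [mem_W]; omega⟩
        · exact ⟨r - 1, by rw [mem_W]; omega⟩
  · intro c s
    constructor
    · rintro ⟨r, h⟩
      rw [mem_W] at h
      by_cases hs : s = 0
      · by_cases hc : c = k
        · exact ⟨0, by rw [mem_B]; omega⟩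
        · exact ⟨c + 1, by rw [mem_B]; omega⟩
      · by_cases hsc : s = c
        · exact ⟨c, by rw [mem_B]; omega⟩
        · exact ⟨0, by rw [mem_B]; omega⟩
    · rintro ⟨r, h⟩
      rw [mem_B] at h
      by_cases hs : s = 0
      · exact ⟨c, by rw [mem_W]; omega⟩
      · by_cases hsc : s = c
        · exact ⟨0, by rw [mem_W]; omega⟩
        · exact ⟨c + 1, by rw [mem_W]; omega⟩

lemma card_W (k : ℕ) : (W k).card = 3 * k + 1 := by
  unfold W
  rw [Finset.card_union_of_disjoint, Finset.card_union_of_disjoint, Finset.card_image_of_injective,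
    Finset.card_image_of_injective, Finset.card_image_of_injective, Finset.card_range,
    Finset.card_range]
  · ring
  · intro a b h; simp only [Prod.mk.injEq] at h; omega
  · intro a b h; simp only [Prod.mk.injEq] at h; omega
  · intro a b h; simp only [Prod.mk.injEq] at h; omega
  · rw [Finset.disjoint_left]
    rintro ⟨r, c, s⟩ h h'
    simp only [Finset.mem_image, Finset.mem_range, Prod.mk.injEq] at h h'
    obtain ⟨i, hi⟩ := h
    obtain ⟨j, hj⟩ := h'
    omega
  · rw [Finset.disjoint_left]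
    rintro ⟨r, c, s⟩ h h'
    simp only [Finset.mem_union, Finset.mem_image, Finset.mem_range, Prod.mk.injEq] at h h'
    obtain ⟨i, hi⟩ := h
    rcases h' with ⟨j, hj⟩ | ⟨j, hj⟩ <;> omega

lemma pow_inj (k i j : ℕ) (hi : i ≤ k) (hj : j ≤ k)
    (h : (2 : ZMod (2 ^ k)) ^ i = 2 ^ j) : i = j := by
  have h' : ((2 ^ i : ℕ) : ZMod (2 ^ k)) = ((2 ^ j : ℕ) : ZMod (2 ^ k)) := by
    push_cast
    exact h
  rw [ZMod.natCast_eq_natCast_iff'] at h'
  have hpos : ∀ a : ℕ, 0 < 2 ^ a := fun a => by positivity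
  rcases Nat.lt_or_ge i k with hik | hik <;> rcases Nat.lt_or_ge j k with hjk | hjk
  · rw [Nat.mod_eq_of_lt (Nat.pow_lt_pow_right (by norm_num) hik),
      Nat.mod_eq_of_lt (Nat.pow_lt_pow_right (by norm_num) hjk)] at h'
    exact Nat.pow_right_injective le_rfl h'
  · have : j = k := le_antisymm hj hjk
    subst this
    rw [Nat.mod_self, Nat.mod_eq_of_lt (Nat.pow_lt_pow_right (by norm_num) hik)] at h'
    have := hpos i
    omega
  · have : i = k := le_antisymm hi hik
    subst this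
    rw [Nat.mod_self, Nat.mod_eq_of_lt (Nat.pow_lt_pow_right (by norm_num) hjk)] at h'
    have := hpos j
    omega
  · omega

lemma two_pow_zero (k : ℕ) : (2 : ZMod (2 ^ k)) ^ k = 0 := by
  have : ((2 ^ k : ℕ) : ZMod (2 ^ k)) = 0 := ZMod.natCast_self _
  push_cast at this
  exact this

lemma embeds_W (k : ℕ) : Embeds (W k) (ZMod (2 ^ k)) := by
  refine ⟨fun i => - 2 ^ (k - i), fun i => 2 ^ (k - i), fun i => 2 ^ (k - i), ?_, ?_, ?_, ?_⟩
  · rintro i ⟨c, s, hi⟩ j ⟨c', s', hj⟩ h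
    rw [mem_W] at hi hj
    have := pow_inj k (k - i) (k - j) (by omega) (by omega) (neg_injective h)
    omega
  · rintro i ⟨c, s, hi⟩ j ⟨c', s', hj⟩ h
    rw [mem_W] at hi hj
    have := pow_inj k (k - i) (k - j) (by omega) (by omega) h
    omega
  · rintro i ⟨c, s, hi⟩ j ⟨c', s', hj⟩ h
    rw [mem_W] at hi hj
    have := pow_inj k (k - i) (k - j) (by omega) (by omega) h
    omega
  · intro r c s h
    rw [mem_W] at h
    have h0 := two_pow_zero k
    rcases h with ⟨rfl, rfl, h⟩ | ⟨rfl, rfl, h⟩ | ⟨rfl, rfl, h⟩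
    · simp [h0]
    · have : k - c = (k - (c + 1)) + 1 := by omega
      simp only
      rw [this, pow_succ]
      ring
    · simp [h0]

lemma embeds_B (k : ℕ) (hk : 1 ≤ k) : Embeds (B k) (ZMod (2 ^ k)) := by
  refine ⟨fun i => if i = 0 then 0 else - 2 ^ (i - 1), fun i => 2 ^ i,
    fun i => if i = 0 then 0 else 2 ^ (i - 1), ?_, ?_, ?_, ?_⟩
  · have h0 := two_pow_zero k
    rintro i ⟨c, s, hi⟩ j ⟨c', s', hj⟩ h
    rw [mem_B] at hi hj
    simp only at h
    split_ifs at h with h1 h2 h2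
    · omega
    · exfalso
      rw [← neg_zero, ← h0] at h
      have := pow_inj k k (j - 1) le_rfl (by omega) (neg_injective h)
      omega
    · exfalso
      rw [← neg_zero, ← h0] at h
      have := pow_inj k (i - 1) k (by omega) le_rfl (neg_injective h)
      omega
    · have := pow_inj k (i - 1) (j - 1) (by omega) (by omega) (neg_injective h)
      omega
  · rintro i ⟨c, s, hi⟩ j ⟨c', s', hj⟩ h
    rw [mem_B] at hi hj
    exact pow_inj k i j (by omega) (by omega) h
  · have h0 := two_pow_zero k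
    rintro i ⟨c, s, hi⟩ j ⟨c', s', hj⟩ h
    rw [mem_B] at hi hj
    simp only at h
    split_ifs at h with h1 h2 h2
    · omega
    · exfalso
      rw [← h0] at h
      have := pow_inj k k (j - 1) le_rfl (by omega) h
      omega
    · exfalso
      rw [← h0] at h
      have := pow_inj k (i - 1) k (by omega) le_rfl h
      omega
    · have := pow_inj k (i - 1) (j - 1) (by omega) (by omega) h
      omega
  · intro r c s h
    rw [mem_B] at h
    have h0 := two_pow_zero k
    rcases h with ⟨rfl, rfl, h⟩ | ⟨rfl, rfl, rfl⟩ | ⟨h1, h2, h, _⟩ | ⟨rfl, rfl, h⟩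
    · simp
    · simp [h0]
    · rw [h1, h2]
      obtain ⟨m, rfl⟩ : ∃ m, c = m + 1 := ⟨c - 1, by omega⟩
      have h3 : m + 1 ≠ 0 := by omega
      simp only [if_neg h3]
      rw [Nat.add_sub_cancel, pow_succ]
      ring
    · simp

/-- every finite abelian group in which `W k` embeds has order at least `2 ^ k` -/
lemma lower (k : ℕ) (hk : 1 ≤ k) (G : Type) [AddCommGroup G] [Finite G] (h : Embeds (W k) G) :
    2 ^ k ≤ Nat.card G := by
  obtain ⟨α, β, γ, _, _, hγ, hP⟩ := h
  have hstep : ∀ i, i < k → γ i - γ 0 = 2 • (γ (i + 1) - γ 0) := by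
    intro i hi
    have h1 := hP 0 i i (by rw [mem_W]; omega)
    have h2 := hP (i + 1) i (i + 1) (by rw [mem_W]; omega)
    have h3 := hP (i + 1) (i + 1) 0 (by rw [mem_W]; omega)
    have h4 := hP 0 (i + 1) (i + 1) (by rw [mem_W]; omega)
    rw [two_nsmul]
    rw [← h1, ← h3]
    nth_rewrite 1 [← h4]
    rw [← h2]
    abel
  have hpow : ∀ j, j ≤ k → γ (k - j) - γ 0 = (2 ^ j) • (γ k - γ 0) := by
    intro j
    induction j with
    | zero => intro _; simp
    | succ j ih =>
      intro hj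
      have h1 := hstep (k - (j + 1)) (by omega)
      have h2 : k - (j + 1) + 1 = k - j := by omega
      rw [h1, h2, ih (by omega), ← mul_nsmul, pow_succ]
  obtain ⟨m, rfl⟩ : ∃ m, k = m + 1 := ⟨k - 1, by omega⟩
  have hne : ¬ 2 ^ m • (γ (m + 1) - γ 0) = 0 := by
    intro h
    have h1 := hpow m (by omega)
    rw [h] at h1
    have h2 : m + 1 - m = 1 := by omega
    rw [h2] at h1
    have h3 : γ 1 = γ 0 := sub_eq_zero.1 h1
    have := hγ ⟨0, 1, by rw [mem_W]; omega⟩ ⟨0, 0, by rw [mem_W]; omega⟩ h3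
    omega
  have hz : 2 ^ (m + 1) • (γ (m + 1) - γ 0) = 0 := by
    have h1 := hpow (m + 1) le_rfl
    rw [← h1, Nat.sub_self, sub_self]
  have hord : addOrderOf (γ (m + 1) - γ 0) = 2 ^ (m + 1) := addOrderOf_eq_prime_pow hne hz
  rw [← hord]
  exact Nat.le_of_dvd Nat.card_pos (addOrderOf_dvd_natCard _)

theorem result :
    (∀ k : ℕ, 1 ≤ k → IsBitrade (W k) (B k) ∧ (W k).card = 3 * k + 1 ∧
      IsLeast (orders (W k) (B k)) (2 ^ k)) ∧
    ∃ c : ℝ, 1 < c ∧ ∀ k : ℕ, 1 ≤ k → c ^ (W k).card ≤ ((2 ^ k : ℕ) : ℝ) := by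
  constructor
  · intro k hk
    refine ⟨bitrade k hk, card_W k, ?_, ?_⟩
    · refine ⟨ZMod (2 ^ k), inferInstance, ?_, embeds_W k, embeds_B k hk, ?_⟩
      · have : NeZero (2 ^ k) := ⟨by positivity⟩
        exact inferInstance
      · rw [Nat.card_zmod]
    · rintro n ⟨G, _, _, hW, hB, rfl⟩
      exact lower k hk G hW
  · refine ⟨(2 : ℝ) ^ ((1 : ℝ) / 4), Real.one_lt_rpow (by norm_num) (by norm_num), ?_⟩
    intro k hk
    rw [card_W, ← Real.rpow_natCast, ← Real.rpow_mul (by norm_num)]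
    push_cast
    rw [← Real.rpow_natCast]
    apply Real.rpow_le_rpow_of_exponent_le (by norm_num)
    have : (1 : ℝ) ≤ k := by exact_mod_cast hk
    linarith

end Pool.Agent.Results.MP_afce15_co.Exponential
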